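import Mathlib
import Pool.Agent.Q154.ExactDist2

/-!
# An expanding set which is not a van der Corput set
-/

namespace Pool.Agent.Results.MP_f7f1a6_co.ExpandingNotVdC

open Finset Filter Topology MeasureTheory ProbabilityTheory Q154.ExactDist

section Definitions

variable {G : Type*} [AddCommGroup G]

/-- The Bohr set of a finite set of characters and a radius. -/
def bohr (L : Finset (AddChar G Circle)) (η : ℝ) : Set G :=
  {x | ∀ χ ∈ L, ‖((χ x : Circle) : ℂ) - 1‖ < η}

/-- Bounded real functions. -/
def Bdd (f : G → ℝ) : Prop := ∃ C, ∀ x, |f x| ≤ C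

/-- Translation-invariant means on the space of bounded real functions on `G` (only the values of
`m` on bounded functions matter). -/
structure IsInvMean (m : (G → ℝ) → ℝ) : Prop where
  add : ∀ f g, Bdd f → Bdd g → m (fun x => f x + g x) = m f + m g
  smul : ∀ (c : ℝ) f, Bdd f → m (fun x => c * f x) = c * m f
  nonneg : ∀ f, Bdd f → (∀ x, 0 ≤ f x) → 0 ≤ m f
  one : m (fun _ => 1) = 1
  inv : ∀ (g : G) f, Bdd f → m (fun x => f (x + g)) = m f

/-- Upper Banach density: the supremum of the invariant means of the indicator function. -/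
noncomputable def upperBanach (A : Set G) : ℝ :=
  sSup {d | ∃ m : (G → ℝ) → ℝ, IsInvMean m ∧ d = m (A.indicator fun _ => 1)}

/-- The set `A - A + S`. -/
def diffAdd (A S : Set G) : Set G := {x | ∃ a ∈ A, ∃ a' ∈ A, ∃ s ∈ S, x = a - a' + s}

/-- `S` is expanding from positive upper Banach density to Bohr sets. -/
def Expanding (S : Set G) : Prop :=
  ∀ A : Set G, 0 < upperBanach A →
    ∃ (L : Finset (AddChar G Circle)) (η : ℝ), 0 < η ∧ bohr L η ⊆ diffAdd A S

end Definitions

/-- The dual group of the discrete group `G`. -/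
def Dual (G : Type*) [AddCommGroup G] : Type _ := AddChar G Circle

section DualDefinitions

variable {G : Type*} [AddCommGroup G]

/-- The dual group carries the topology of pointwise convergence. -/
noncomputable instance : TopologicalSpace (Dual G) :=
  TopologicalSpace.induced (fun (χ : AddChar G Circle) (x : G) => χ x) Pi.topologicalSpace

/-- The Borel sets of the dual group. -/
noncomputable instance : MeasurableSpace (Dual G) := borel _

instance : BorelSpace (Dual G) := ⟨rfl⟩

/-- The Fourier coefficient of a measure on the dual group. -/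
noncomputable def coeff (σ : Measure (Dual G)) (x : G) : ℂ :=
  ∫ χ : Dual G, (((show AddChar G Circle from χ) x : Circle) : ℂ) ∂σ

/-- The trivial character. -/
noncomputable def triv : Dual G := (1 : AddChar G Circle)

/-- Van der Corput sets. -/
def IsVanDerCorput (S : Set G) : Prop :=
  ∀ σ : Measure (Dual G), IsFiniteMeasure σ → (∀ s ∈ S, coeff σ s = 0) → σ {triv} = 0

end DualDefinitions

/-- The countable vector space over the field with two elements. -/
abbrev V2 := ℕ →₀ ZMod 2

/-- The indicator word of a finite set. -/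
noncomputable def u (T : Finset ℕ) : V2 :=
  Finsupp.onFinset T (fun i => if i ∈ T then 1 else 0) (by
    intro i hi
    by_contra h
    simp [h] at hi)

theorem u_apply (T : Finset ℕ) (i : ℕ) : u T i = if i ∈ T then 1 else 0 := rfl

theorem u_symmDiff (U U' : Finset ℕ) : u (symmDiff U U') = u U + u U' := by
  ext i
  rw [Finsupp.add_apply, u_apply, u_apply, u_apply]
  by_cases h1 : i ∈ U <;> by_cases h2 : i ∈ U' <;> simp [Finset.mem_symmDiff, h1, h2]
  rfl

theorem add_self' (x : V2) : x + x = 0 := by
  ext i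
  rw [Finsupp.add_apply, Finsupp.zero_apply]
  generalize x i = b
  revert b; decide

theorem neg_eq' (x : V2) : -x = x := by
  rw [neg_eq_iff_add_eq_zero]; exact add_self' x

/-- Block boundaries. -/
def N : ℕ → ℕ
  | 0 => 0
  | k + 1 => N k + 8 * (k + 1)

/-- The block `k`. -/
def I (k : ℕ) : Finset ℕ := Finset.Ico (N k) (N k + 8 * (k + 1))

theorem card_I (k : ℕ) : (I k).card = 8 * (k + 1) := by
  rw [I, Nat.card_Ico]; omega

theorem N_mono : Monotone N := monotone_nat_of_le_succ fun k => by
  show N k ≤ N k + 8 * (k + 1)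
  omega

theorem le_N (k : ℕ) : k ≤ N k := by
  induction k with
  | zero => exact Nat.zero_le _
  | succ k ih =>
    show k + 1 ≤ N k + 8 * (k + 1)
    omega

theorem lt_N_succ (i : ℕ) : i < N (i + 1) := by
  have h1 := le_N i
  show i < N i + 8 * (i + 1)
  omega

theorem exists_bound (g : V2) : ∃ M, ∀ i, M ≤ i → g i = 0 := by
  refine ⟨g.support.sup id + 1, fun i hi => ?_⟩
  by_contra h
  have := Finset.le_sup (f := id) (Finsupp.mem_support_iff.2 h)
  simp only [id] at this
  omega

open Classical in
/-- Every element of the group is listed infinitely often. -/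
theorem exists_list : ∃ c : ℕ → V2, (∀ k i, N k ≤ i → c k i = 0) ∧
    ∀ g : V2, ∀ m, ∃ k, m ≤ k ∧ c k = g := by
  obtain ⟨e, he⟩ := exists_surjective_nat V2
  refine ⟨fun k => if ∀ i, N k ≤ i → e (Nat.unpair k).1 i = 0 then e (Nat.unpair k).1 else 0,
    ?_, ?_⟩
  · intro k i hi
    simp only
    split_ifs with h
    · exact h i hi
    · rfl
  · intro g m
    obtain ⟨j, rfl⟩ := he g
    obtain ⟨M, hM⟩ := exists_bound (e j)
    refine ⟨Nat.pair j (max m M), (le_max_left m M).trans (Nat.right_le_pair _ _), ?_⟩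
    simp only
    rw [Nat.unpair_pair]
    simp only
    rw [if_pos]
    intro i hi
    apply hM
    exact ((le_max_right m M).trans (Nat.right_le_pair j _)).trans ((le_N _).trans hi)

/-- The set. -/
def SS (c : ℕ → V2) : Set V2 :=
  {x | ∃ (k : ℕ) (T : Finset ℕ), T ⊆ I k ∧ T.card = 6 * (k + 1) ∧ x = c k + u T}

/-! ### Expansion -/

open Classical in
theorem mean_sum {m : (V2 → ℝ) → ℝ} (hm : IsInvMean m) {ι : Type*} (s : Finset ι)
    (f : ι → V2 → ℝ) (hf : ∀ i ∈ s, Bdd (f i)) :
    Bdd (fun x => ∑ i ∈ s, f i x) ∧ m (fun x => ∑ i ∈ s, f i x) = ∑ i ∈ s, m (f i) := by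
  induction s using Finset.induction_on with
  | empty =>
    refine ⟨⟨0, fun x => by simp⟩, ?_⟩
    simp only [Finset.sum_empty]
    have := hm.smul 0 (fun _ => 1) ⟨1, fun x => by simp⟩
    simpa using this
  | insert a s ha ih =>
    have h1 : Bdd (f a) := hf a (Finset.mem_insert_self a s)
    obtain ⟨h2, h3⟩ := ih fun i hi => hf i (Finset.mem_insert_of_mem hi)
    constructor
    · obtain ⟨C1, hC1⟩ := h1
      obtain ⟨C2, hC2⟩ := h2
      refine ⟨C1 + C2, fun x => ?_⟩
      show |∑ i ∈ insert a s, f i x| ≤ C1 + C2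
      rw [Finset.sum_insert ha]
      exact (abs_add_le _ _).trans (add_le_add (hC1 x) (hC2 x))
    · rw [Finset.sum_insert ha, ← h3, ← hm.add _ _ h1 h2]
      congr 1
      ext x
      rw [Finset.sum_insert ha]

open Classical in
/-- A set of positive mean is dense on some translate of every finite family. -/
theorem exists_translate {m : (V2 → ℝ) → ℝ} (hm : IsInvMean m) (A : Set V2)
    (P : Finset (Finset ℕ)) : ∃ x : V2,
    m (A.indicator fun _ => 1) * P.card ≤ ((P.filter fun T => x + u T ∈ A).card : ℝ) := by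
  have hb : Bdd (A.indicator fun _ => (1 : ℝ)) := ⟨1, fun x => by
    by_cases hx : x ∈ A <;> simp [hx]⟩
  have hb2 : ∀ T ∈ P, Bdd (fun x => A.indicator (fun _ => (1 : ℝ)) (x + u T)) := by
    intro T _
    obtain ⟨C, hC⟩ := hb
    exact ⟨C, fun x => hC _⟩
  obtain ⟨h1, h2⟩ := mean_sum hm P (fun T x => A.indicator (fun _ => (1 : ℝ)) (x + u T)) hb2
  have h3 : ∑ T ∈ P, m (fun x => A.indicator (fun _ => (1 : ℝ)) (x + u T)) =
      m (A.indicator fun _ => 1) * P.card := by
    rw [Finset.sum_congr rfl fun T _ => hm.inv (u T) _ hb, Finset.sum_const, nsmul_eq_mul,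
      mul_comm]
  rw [h3] at h2
  have hval : ∀ x : V2, ∑ T ∈ P, A.indicator (fun _ => (1 : ℝ)) (x + u T) =
      ((P.filter fun T => x + u T ∈ A).card : ℝ) := by
    intro x
    rw [Finset.card_filter]
    push_cast
    apply Finset.sum_congr rfl
    intro T _
    by_cases hx : x + u T ∈ A <;> simp [hx]
  -- the maximum of the counting function
  obtain ⟨x0, hx0⟩ : ∃ x0 : V2, ∀ x : V2, (P.filter fun T => x + u T ∈ A).card ≤
      (P.filter fun T => x0 + u T ∈ A).card := by
    have hbd : BddAbove (Set.range fun x : V2 => (P.filter fun T => x + u T ∈ A).card) :=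
      ⟨P.card, by
        rintro _ ⟨x, rfl⟩
        exact Finset.card_le_card (Finset.filter_subset _ _)⟩
    have hmem := Nat.sSup_mem (Set.range_nonempty _) hbd
    obtain ⟨x0, hx0⟩ := hmem
    refine ⟨x0, fun x => ?_⟩
    rw [show (P.filter fun T => x0 + u T ∈ A).card = _ from hx0]
    exact le_csSup hbd ⟨x, rfl⟩
  refine ⟨x0, ?_⟩
  rw [← h2]
  set M : ℝ := ((P.filter fun T => x0 + u T ∈ A).card : ℝ) with hM
  -- monotonicity of the mean
  have hconst : Bdd (fun _ : V2 => M) := ⟨|M|, fun _ => le_rfl⟩
  have hneg : Bdd (fun x : V2 => (-1 : ℝ) * ∑ T ∈ P, A.indicator (fun _ => (1 : ℝ)) (x + u T)) := by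
    obtain ⟨C, hC⟩ := h1
    exact ⟨C, fun x => by rw [abs_mul, abs_neg, abs_one, one_mul]; exact hC x⟩
  have h4 := hm.add _ _ hconst hneg
  have h5 := hm.smul (-1) _ h1
  have h6 := hm.smul M (fun _ => 1) ⟨1, fun x => by simp⟩
  rw [hm.one] at h6
  simp only [mul_one] at h6
  rw [h5, h6] at h4
  have h7 := hm.nonneg (fun x : V2 => M +
      (-1 : ℝ) * ∑ T ∈ P, A.indicator (fun _ => (1 : ℝ)) (x + u T)) (by
    obtain ⟨C1, hC1⟩ := hconst
    obtain ⟨C2, hC2⟩ := hneg
    exact ⟨C1 + C2, fun x => (abs_add_le _ _).trans (add_le_add (hC1 x) (hC2 x))⟩) (by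
    intro x
    rw [hval x]
    have : ((P.filter fun T => x + u T ∈ A).card : ℝ) ≤ M := by
      rw [hM]; exact Nat.cast_le.2 (hx0 x)
    linarith)
  rw [h4] at h7
  linarith

theorem pos_of_upperBanach {A : Set V2} (h : 0 < upperBanach A) :
    ∃ m : (V2 → ℝ) → ℝ, IsInvMean m ∧ 0 < m (A.indicator fun _ => 1) := by
  unfold upperBanach at h
  have hne : {d | ∃ m : (V2 → ℝ) → ℝ, IsInvMean m ∧ d = m (A.indicator fun _ => 1)}.Nonempty := by
    by_contra hcon
    rw [Set.not_nonempty_iff_eq_empty] at hcon
    rw [hcon, Real.sSup_empty] at h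
    exact lt_irrefl _ h
  obtain ⟨d, ⟨m, hm, rfl⟩, hd⟩ := exists_lt_of_lt_csSup hne h
  exact ⟨m, hm, hd⟩

open Classical in
/-- Differences of a dense set together with the set cover everything. -/
theorem expand {c : ℕ → V2} (hlist : ∀ g : V2, ∀ m, ∃ k, m ≤ k ∧ c k = g) (A : Set V2)
    (hA : 0 < upperBanach A) : diffAdd A (SS c) = Set.univ := by
  rw [Set.eq_univ_iff_forall]
  intro g
  obtain ⟨m, hm, hpos⟩ := pos_of_upperBanach hA
  obtain ⟨r₀, hr₀⟩ := exact_distance _ hpos
  obtain ⟨k, hk, hck⟩ := hlist g r₀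
  obtain ⟨x, hx⟩ := exists_translate hm A (I k).powerset
  rw [Finset.card_powerset, card_I] at hx
  push_cast at hx
  obtain ⟨T, hT, T', hT', hTT⟩ := hr₀ (k + 1) (by omega) (I k) (card_I k)
    ((I k).powerset.filter fun T => x + u T ∈ A) (Finset.filter_subset _ _) hx
  rw [Finset.mem_filter, Finset.mem_powerset] at hT hT'
  refine ⟨x + u T, hT.2, x + u T', hT'.2, c k + u (symmDiff T T'),
    ⟨k, symmDiff T T', ?_, hTT, rfl⟩, ?_⟩
  · intro i hi
    rw [Finset.mem_symmDiff] at hi
    rcases hi with hi | hi
    · exact hT.1 hi.1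
    · exact hT'.1 hi.1
  · rw [hck, u_symmDiff, sub_eq_add_neg, neg_eq']
    have h1 := add_self' x
    have h2 := add_self' (u T)
    have h3 := add_self' (u T')
    calc g = g + 0 + 0 + 0 := by simp
      _ = g + (x + x) + (u T + u T) + (u T' + u T') := by rw [h1, h2, h3]
      _ = _ := by abel

/-! ### The random character -/

/-- The evaluation pairing. -/
noncomputable def P (β : ℕ → ZMod 2) : V2 →+ ZMod 2 :=
  Finsupp.liftAddHom fun i => AddMonoidHom.mulLeft (β i)

theorem P_apply (β : ℕ → ZMod 2) (x : V2) : P β x = ∑ i ∈ x.support, β i * x i := rfl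

theorem P_congr {β β' : ℕ → ZMod 2} {x : V2} (h : ∀ i, x i ≠ 0 → β i = β' i) :
    P β x = P β' x := by
  rw [P_apply, P_apply]
  apply Finset.sum_congr rfl
  intro i hi
  rw [h i (Finsupp.mem_support_iff.1 hi)]

theorem P_u (β : ℕ → ZMod 2) (T : Finset ℕ) : P β (u T) = ∑ i ∈ T, β i := by
  rw [P_apply]
  have h : (u T).support = T := by
    ext i
    rw [Finsupp.mem_support_iff, u_apply]
    by_cases hi : i ∈ T <;> simp [hi]
  rw [h]
  apply Finset.sum_congr rfl
  intro i hi
  rw [u_apply, if_pos hi, mul_one]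

/-- The nontrivial sign character. -/
noncomputable def sg : AddChar (ZMod 2) Circle where
  toFun a := if a = 0 then 1 else -1
  map_zero_eq_one' := by simp
  map_add_eq_mul' a b := by
    have key : ∀ a b : ZMod 2, (a = 0 ∧ b = 0) ∨ (a = 0 ∧ b = 1) ∨ (a = 1 ∧ b = 0) ∨
      (a = 1 ∧ b = 1) := by decide
    rcases key a b with ⟨rfl, rfl⟩ | ⟨rfl, rfl⟩ | ⟨rfl, rfl⟩ | ⟨rfl, rfl⟩
    · simp
    · simp
    · simp
    · have h : (1 : ZMod 2) + 1 = 0 := by decide
      rw [h, if_pos rfl, if_neg (by decide)]
      simp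

theorem sg_coe (a : ZMod 2) : ((sg a : Circle) : ℂ) = if a = 0 then 1 else -1 := by
  show (((if a = 0 then 1 else -1 : Circle)) : ℂ) = _
  split_ifs <;> simp

/-- The probability space. -/
abbrev Om := (k : ℕ) → Fin (8 * (k + 1)) × Fin 3

/-- The uniform measure on one coordinate. -/
noncomputable def nu (k : ℕ) : Measure (Fin (8 * (k + 1)) × Fin 3) :=
  (PMF.uniformOfFintype (Fin (8 * (k + 1)) × Fin 3)).toMeasure

instance (k : ℕ) : IsProbabilityMeasure (nu k) := by unfold nu; infer_instance

/-- The product measure. -/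
noncomputable def mu : Measure Om := Measure.infinitePi nu

instance : IsProbabilityMeasure mu := by unfold mu; infer_instance

variable (c : ℕ → V2)

/-- The coordinates of the random character, block after block. -/
noncomputable def B (ω : Om) : ℕ → ℕ → ZMod 2
  | 0 => 0
  | k + 1 => fun i => if i = N k + (ω k).1 then
      (if (ω k).2 = 0 ∨ P (B ω k) (c k) = 0 then 1 else 0) else B ω k i

theorem B_zero (ω : Om) (k : ℕ) : ∀ i, N k ≤ i → B c ω k i = 0 := by
  induction k with
  | zero => intro i _; rfl
  | succ k ih =>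
    intro i hi
    have e : N (k + 1) = N k + 8 * (k + 1) := rfl
    have h1 := (ω k).1.isLt
    show (if i = N k + (ω k).1 then _ else B c ω k i) = 0
    rw [if_neg (by omega)]
    exact ih i (by omega)

theorem B_stable (ω : Om) {k l : ℕ} (h : k ≤ l) {i : ℕ} (hi : i < N k) :
    B c ω l i = B c ω k i := by
  induction l, h using Nat.le_induction with
  | base => rfl
  | succ l hl ih =>
    have h1 := N_mono hl
    show (if i = N l + (ω l).1 then _ else B c ω l i) = _
    rw [if_neg (by omega)]
    exact ih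

theorem B_congr {ω ω' : Om} (k : ℕ) (h : ∀ j < k, ω j = ω' j) : B c ω k = B c ω' k := by
  induction k with
  | zero => rfl
  | succ k ih =>
    have h1 := ih fun j hj => h j (by omega)
    have h2 := h k (by omega)
    show (fun i => if i = N k + (ω k).1 then
      (if (ω k).2 = 0 ∨ P (B c ω k) (c k) = 0 then 1 else 0) else B c ω k i) =
      (fun i => if i = N k + (ω' k).1 then
      (if (ω' k).2 = 0 ∨ P (B c ω' k) (c k) = 0 then 1 else 0) else B c ω' k i)
    rw [h1, h2]

theorem B_locConst (k : ℕ) : IsLocallyConstant (fun ω : Om => B c ω k) := by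
  induction k with
  | zero => exact IsLocallyConstant.const _
  | succ k ih =>
    have h1 : IsLocallyConstant (fun ω : Om => ω k) := by
      rw [IsLocallyConstant.iff_continuous]
      exact continuous_apply k
    exact ih.comp₂ h1 (fun b x => fun i => if i = N k + x.1 then
      (if x.2 = 0 ∨ P b (c k) = 0 then 1 else 0) else b i)

/-- The full coordinate sequence. -/
noncomputable def beta (ω : Om) (i : ℕ) : ZMod 2 := B c ω (i + 1) i

theorem beta_eq (ω : Om) {k i : ℕ} (hi : i < N k) : beta c ω i = B c ω k i := by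
  unfold beta
  rw [← B_stable c ω (le_max_left k (i + 1)) hi,
    ← B_stable c ω (le_max_right k (i + 1)) (lt_N_succ i)]

/-- The random character. -/
noncomputable def Psi (ω : Om) : Dual V2 := (sg.compAddMonoidHom (P (beta c ω)) : AddChar V2 Circle)

/-- Its values. -/
noncomputable def val (ω : Om) (x : V2) : Circle := sg (P (beta c ω) x)

theorem val_locConst (x : V2) : IsLocallyConstant (fun ω : Om => val c ω x) := by
  obtain ⟨M, hM⟩ := exists_bound x
  have h : (fun ω : Om => val c ω x) = (fun b => sg (P b x)) ∘ (fun ω : Om => B c ω M) := by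
    funext ω
    show sg (P (beta c ω) x) = sg (P (B c ω M) x)
    rw [P_congr]
    intro i hi
    apply beta_eq
    by_contra hcon
    push Not at hcon
    exact hi (hM i ((le_N M).trans hcon))
  rw [h]
  exact (B_locConst c M).comp _

theorem Psi_continuous : Continuous (Psi c) := by
  rw [continuous_induced_rng]
  apply continuous_pi
  intro x
  exact (val_locConst c x).continuous

/-- Splitting off the last coordinate. -/
theorem integral_split (k : ℕ) (F : (ℕ → ZMod 2) → ℂ) (h : Fin (8 * (k + 1)) × Fin 3 → ℂ) :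
    ∫ ω, F (B c ω k) * h (ω k) ∂mu = (∫ ω, F (B c ω k) ∂mu) * ∫ x, h x ∂(nu k) := by
  have hind : iIndepFun (fun (i : ℕ) (ω : Om) => ω i) mu :=
    iIndepFun_infinitePi (P := nu) (X := fun i (x : Fin (8 * (i + 1)) × Fin 3) => x)
      (fun i => measurable_id)
  have h2 := hind.indepFun_finset (Finset.range k) {k} (by simp) (fun i => measurable_pi_apply i)
  let ext : ((i : Finset.range k) → Fin (8 * ((i : ℕ) + 1)) × Fin 3) → Om := fun y j =>
    if hj : j ∈ Finset.range k then y ⟨j, hj⟩ else (⟨0, by omega⟩, 0)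
  let φ : ((i : Finset.range k) → Fin (8 * ((i : ℕ) + 1)) × Fin 3) → ℂ :=
    fun y => F (B c (ext y) k)
  let ψ : ((i : ({k} : Finset ℕ)) → Fin (8 * ((i : ℕ) + 1)) × Fin 3) → ℂ :=
    fun z => h (z ⟨k, Finset.mem_singleton_self k⟩)
  have hφ : Measurable φ := Measurable.of_discrete
  have hψ : Measurable ψ := Measurable.of_discrete
  have h3 := h2.comp hφ hψ
  have e1 : (φ ∘ fun (a : Om) (i : Finset.range k) => a i) = fun ω => F (B c ω k) := by
    funext ω
    show F (B c (ext fun i => ω i) k) = F (B c ω k)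
    rw [B_congr c (ω := ext fun i => ω i) (ω' := ω) k]
    intro j hj
    show (if hj : j ∈ Finset.range k then ω j else _) = ω j
    rw [dif_pos (Finset.mem_range.2 hj)]
  have e2 : (ψ ∘ fun (a : Om) (i : ({k} : Finset ℕ)) => a i) = fun ω => h (ω k) := rfl
  rw [e1, e2] at h3
  have m1 : AEStronglyMeasurable (fun ω => F (B c ω k)) mu := by
    rw [← e1]
    exact (hφ.comp (measurable_pi_lambda _ fun i => measurable_pi_apply _)).aestronglyMeasurable
  have m2 : AEStronglyMeasurable (fun ω : Om => h (ω k)) mu :=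
    ((Measurable.of_discrete (f := h)).comp (measurable_pi_apply k)).aestronglyMeasurable
  rw [h3.integral_fun_mul_eq_mul_integral m1 m2]
  congr 1
  have h4 : (mu.map fun ω : Om => ω k) = nu k := Measure.infinitePi_map_eval nu k
  rw [← h4, integral_map (measurable_pi_apply k).aemeasurable]
  exact (Measurable.of_discrete (f := h)).aestronglyMeasurable

theorem integral_nu (k : ℕ) (h : Fin (8 * (k + 1)) × Fin 3 → ℂ) :
    ∫ x, h x ∂(nu k) = (1 / (24 * ((k : ℂ) + 1))) * ∑ x, h x := by
  unfold nu
  rw [PMF.integral_eq_sum, Finset.mul_sum]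
  apply Finset.sum_congr rfl
  intro x _
  rw [PMF.uniformOfFintype_apply, Fintype.card_prod, Fintype.card_fin, Fintype.card_fin,
    Complex.real_smul]
  congr 1
  rw [ENNReal.toReal_inv, ENNReal.toReal_natCast]
  push_cast
  rw [one_div]
  congr 1
  ring

open Classical in
/-- The number of coordinates in the block that hit a given set. -/
theorem sum_hit (k : ℕ) (T : Finset ℕ) (hT : T ⊆ I k) :
    ∑ x : Fin (8 * (k + 1)), (if N k + (x : ℕ) ∈ T then (-1 : ℂ) else 1) =
      8 * ((k : ℂ) + 1) - 2 * T.card := by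
  have h1 : ((Finset.univ : Finset (Fin (8 * (k + 1)))).filter
      fun x : Fin (8 * (k + 1)) => N k + (x : ℕ) ∈ T).card = T.card := by
    apply Finset.card_bij (fun (x : Fin (8 * (k + 1))) _ => N k + (x : ℕ))
    · intro x hx
      exact (Finset.mem_filter.1 hx).2
    · intro x _ y _ hxy
      apply Fin.ext
      omega
    · intro i hi
      have h2 := hT hi
      rw [I, Finset.mem_Ico] at h2
      refine ⟨⟨i - N k, by omega⟩, ?_, ?_⟩
      · rw [Finset.mem_filter]
        refine ⟨Finset.mem_univ _, ?_⟩
        show N k + (i - N k) ∈ T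
        rw [Nat.add_sub_cancel' h2.1]
        exact hi
      · show N k + (i - N k) = i
        omega
  have h2 : ∀ x : Fin (8 * (k + 1)), (if N k + (x : ℕ) ∈ T then (-1 : ℂ) else 1) =
      1 - 2 * (if N k + (x : ℕ) ∈ T then 1 else 0) := by
    intro x
    split_ifs <;> norm_num
  rw [Finset.sum_congr rfl fun x _ => h2 x, Finset.sum_sub_distrib, ← Finset.mul_sum,
    ← Finset.sum_filter, Finset.sum_const, Finset.sum_const, h1, Finset.card_univ,
    Fintype.card_fin]
  simp

/-- The Fourier coefficient on the set. -/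
theorem coeff_eq (hc : ∀ k i, N k ≤ i → c k i = 0) (k : ℕ) (T : Finset ℕ) (hT : T ⊆ I k)
    (hcard : T.card = 6 * (k + 1)) :
    ∫ ω, (val c ω (c k + u T) : ℂ) ∂mu = -(1 / 2) := by
  classical
  -- evaluate the character
  have hval : ∀ ω : Om, (val c ω (c k + u T) : ℂ) =
      (if P (B c ω k) (c k) = 0 then (1 : ℂ) else 0) *
        (if N k + ((ω k).1 : ℕ) ∈ T then -1 else 1) +
      (if P (B c ω k) (c k) = 0 then (0 : ℂ) else 1) *
        (if (ω k).2 = 0 then (if N k + ((ω k).1 : ℕ) ∈ T then 1 else -1) else -1) := by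
    intro ω
    have h1 : P (beta c ω) (c k) = P (B c ω k) (c k) := by
      apply P_congr
      intro i hi
      apply beta_eq
      by_contra hcon
      push Not at hcon
      exact hi (hc k i hcon)
    have h2 : P (beta c ω) (u T) = if N k + ((ω k).1 : ℕ) ∈ T then
        (if (ω k).2 = 0 ∨ P (B c ω k) (c k) = 0 then 1 else 0) else 0 := by
      rw [P_u]
      have h3 : ∀ i ∈ T, beta c ω i = if i = N k + ((ω k).1 : ℕ) then
          (if (ω k).2 = 0 ∨ P (B c ω k) (c k) = 0 then 1 else 0) else 0 := by
        intro i hi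
        have h4 := hT hi
        rw [I, Finset.mem_Ico] at h4
        rw [beta_eq c ω (k := k + 1) (by exact h4.2)]
        show (if i = N k + (ω k).1 then _ else B c ω k i) = _
        rw [B_zero c ω k i h4.1]
      rw [Finset.sum_congr rfl h3, Finset.sum_ite_eq']
    unfold val
    rw [sg_coe, map_add, h1, h2]
    generalize P (B c ω k) (c k) = a
    by_cases hT' : N k + ((ω k).1 : ℕ) ∈ T
    · by_cases hv : (ω k).2 = 0
      · by_cases ha : a = 0
        · simp [hT', hv, ha]
        · have ha1 : a = 1 := by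
            revert ha; revert a; decide
          subst ha1
          have h11 : (1 : ZMod 2) + 1 = 0 := by decide
          simp [hT', hv, h11]
      · by_cases ha : a = 0
        · simp [hT', hv, ha]
        · simp [hT', hv, ha]
    · by_cases hv : (ω k).2 = 0
      · by_cases ha : a = 0
        · simp [hT', hv, ha]
        · simp [hT', hv, ha]
      · by_cases ha : a = 0
        · simp [hT', hv, ha]
        · simp [hT', hv, ha]
  rw [integral_congr_ae (Filter.Eventually.of_forall hval)]
  have hk : (k : ℂ) + 1 ≠ 0 := by exact_mod_cast Nat.succ_ne_zero k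
  have i1 : ∀ (F : (ℕ → ZMod 2) → ℂ) (h : Fin (8 * (k + 1)) × Fin 3 → ℂ),
      Integrable (fun ω : Om => F (B c ω k) * h (ω k)) mu := by
    intro F h
    have hl : IsLocallyConstant (fun ω : Om => F (B c ω k) * h (ω k)) := by
      have h1 : IsLocallyConstant (fun ω : Om => ω k) := by
        rw [IsLocallyConstant.iff_continuous]
        exact continuous_apply k
      exact (B_locConst c k).comp₂ h1 (fun b x => F b * h x)
    have hcont := hl.continuous
    exact hcont.integrable_of_hasCompactSupport (HasCompactSupport.of_compactSpace _)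
  have s1 := integral_split c k (fun b => if P b (c k) = 0 then (1 : ℂ) else 0)
    (fun x => if N k + (x.1 : ℕ) ∈ T then -1 else 1)
  have s2 := integral_split c k (fun b => if P b (c k) = 0 then (0 : ℂ) else 1)
    (fun x => if x.2 = 0 then (if N k + (x.1 : ℕ) ∈ T then 1 else -1) else -1)
  have s3 := integral_split c k (fun b => if P b (c k) = 0 then (1 : ℂ) else 0) (fun _ => 1)
  have s4 := integral_split c k (fun b => if P b (c k) = 0 then (0 : ℂ) else 1) (fun _ => 1)
  have j1 := i1 (fun b => if P b (c k) = 0 then (1 : ℂ) else 0)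
    (fun x => if N k + (x.1 : ℕ) ∈ T then -1 else 1)
  have j2 := i1 (fun b => if P b (c k) = 0 then (0 : ℂ) else 1)
    (fun x => if x.2 = 0 then (if N k + (x.1 : ℕ) ∈ T then 1 else -1) else -1)
  have j3 := i1 (fun b => if P b (c k) = 0 then (1 : ℂ) else 0) (fun _ => 1)
  have j4 := i1 (fun b => if P b (c k) = 0 then (0 : ℂ) else 1) (fun _ => 1)
  beta_reduce at s1 s2 s3 s4 j1 j2 j3 j4
  rw [integral_add j1 j2, s1, s2, integral_nu, integral_nu]
  have hsum := integral_add j3 j4
  have hone : ∫ ω : Om, ((if P (B c ω k) (c k) = 0 then (1 : ℂ) else 0) * 1 +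
      (if P (B c ω k) (c k) = 0 then (0 : ℂ) else 1) * 1) ∂mu = 1 := by
    have : ∀ ω : Om, (if P (B c ω k) (c k) = 0 then (1 : ℂ) else 0) * 1 +
      (if P (B c ω k) (c k) = 0 then (0 : ℂ) else 1) * 1 = 1 := by
      intro ω
      split_ifs <;> norm_num
    rw [integral_congr_ae (Filter.Eventually.of_forall this)]
    simp
  rw [hone] at hsum
  simp only [mul_one] at hsum
  have t1 : ∑ x : Fin (8 * (k + 1)) × Fin 3, (if N k + (x.1 : ℕ) ∈ T then (-1 : ℂ) else 1) =
      -(12 * ((k : ℂ) + 1)) := by
    rw [Fintype.sum_prod_type]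
    have t3 : ∀ x : Fin (8 * (k + 1)), ∑ y : Fin 3,
        (if N k + ((x, y).1 : ℕ) ∈ T then (-1 : ℂ) else 1) =
        3 * (if N k + (x : ℕ) ∈ T then (-1 : ℂ) else 1) := by
      intro x
      rw [Fin.sum_univ_three]
      by_cases hx : N k + (x : ℕ) ∈ T
      · simp [hx]; norm_num
      · simp [hx]; norm_num
    rw [Finset.sum_congr rfl fun x _ => t3 x, ← Finset.mul_sum, sum_hit k T hT, hcard]
    push_cast
    ring
  have t2 : ∑ x : Fin (8 * (k + 1)) × Fin 3,
      (if x.2 = 0 then (if N k + (x.1 : ℕ) ∈ T then (1 : ℂ) else -1) else -1) =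
      -(12 * ((k : ℂ) + 1)) := by
    rw [Fintype.sum_prod_type]
    have t3 : ∀ x : Fin (8 * (k + 1)), ∑ y : Fin 3,
        (if y = 0 then (if N k + (x : ℕ) ∈ T then (1 : ℂ) else -1) else -1) =
        - (if N k + (x : ℕ) ∈ T then (-1 : ℂ) else 1) - 2 := by
      intro x
      rw [Fin.sum_univ_three]
      by_cases hx : N k + (x : ℕ) ∈ T
      · simp [hx]; norm_num
      · simp [hx]; norm_num
    rw [Finset.sum_congr rfl fun x _ => t3 x, Finset.sum_sub_distrib, Finset.sum_neg_distrib,
      sum_hit k T hT, hcard, Finset.sum_const, Finset.card_univ, Fintype.card_fin]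
    push_cast
    rw [nsmul_eq_mul]
    push_cast
    ring
  rw [t1, t2]
  have h24 : 1 / (24 * ((k : ℂ) + 1)) * -(12 * ((k : ℂ) + 1)) = -(1 / 2) := by
    field_simp
    norm_num
  rw [h24, ← add_mul, ← hsum]
  norm_num

/-- The spectral measure. -/
noncomputable def spec : Measure (Dual V2) :=
  Measure.dirac triv + (mu.map (Psi c) + mu.map (Psi c))

theorem eval_continuous (x : V2) :
    Continuous (fun χ : Dual V2 => (((show AddChar V2 Circle from χ) x : Circle) : ℂ)) := by
  have h1 : Continuous (fun (χ : Dual V2) (x : V2) => ((show AddChar V2 Circle from χ) x)) :=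
    continuous_induced_dom
  exact continuous_subtype_val.comp ((continuous_apply x).comp h1)

theorem spec_coeff (hc : ∀ k i, N k ≤ i → c k i = 0) (x : V2) (hx : x ∈ SS c) :
    coeff (spec c) x = 0 := by
  obtain ⟨k, T, hT, hcard, rfl⟩ := hx
  set x := c k + u T with hx
  have hm : AEStronglyMeasurable
      (fun χ : Dual V2 => (((show AddChar V2 Circle from χ) x : Circle) : ℂ))
      (mu.map (Psi c)) := (eval_continuous x).aestronglyMeasurable
  have hm' : AEStronglyMeasurable
      (fun χ : Dual V2 => (((show AddChar V2 Circle from χ) x : Circle) : ℂ))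
      (Measure.dirac (triv : Dual V2)) := (eval_continuous x).aestronglyMeasurable
  have h1 : ∫ χ : Dual V2, (((show AddChar V2 Circle from χ) x : Circle) : ℂ) ∂(mu.map (Psi c)) =
      -(1 / 2) := by
    rw [integral_map (Psi_continuous c).measurable.aemeasurable hm]
    exact coeff_eq c hc k T hT hcard
  have hbd : ∀ χ : Dual V2, ‖(((show AddChar V2 Circle from χ) x : Circle) : ℂ)‖ ≤ 1 := by
    intro χ
    rw [Circle.norm_coe]
  have hprob : IsProbabilityMeasure (mu.map (Psi c)) :=
    Measure.isProbabilityMeasure_map (Psi_continuous c).measurable.aemeasurable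
  have i1 : Integrable (fun χ : Dual V2 => (((show AddChar V2 Circle from χ) x : Circle) : ℂ))
      (mu.map (Psi c)) :=
    Integrable.of_bound hm 1 (Filter.Eventually.of_forall hbd)
  have i2 : Integrable (fun χ : Dual V2 => (((show AddChar V2 Circle from χ) x : Circle) : ℂ))
      (Measure.dirac (triv : Dual V2)) :=
    Integrable.of_bound hm' 1 (Filter.Eventually.of_forall hbd)
  unfold coeff spec
  rw [integral_add_measure i2 (i1.add_measure i1), integral_add_measure i1 i1, h1]
  have h2 : ∫ χ : Dual V2, (((show AddChar V2 Circle from χ) x : Circle) : ℂ)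
      ∂(Measure.dirac (triv : Dual V2)) = 1 := by
    rw [integral_dirac' _ _ (eval_continuous x).stronglyMeasurable]
    show ((((1 : AddChar V2 Circle)) x : Circle) : ℂ) = 1
    rw [AddChar.one_apply, Circle.coe_one]
  rw [h2]
  norm_num

/-- Not every expanding set is a van der Corput set: there are a countable abelian group `G` and a
set `S` such that `A - A + S` is the whole group (hence contains a Bohr set) for every set `A` of
positive upper Banach density, while `S` is not a van der Corput set. -/
theorem result : ∃ (G : Type) (_ : AddCommGroup G) (S : Set G),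
    Countable G ∧ Expanding S ∧ (∀ A : Set G, 0 < upperBanach A → diffAdd A S = Set.univ) ∧
    ¬ IsVanDerCorput S := by
  obtain ⟨c, hc, hlist⟩ := exists_list
  have hexp := expand hlist
  refine ⟨V2, inferInstance, SS c, inferInstance, ?_, hexp, ?_⟩
  · intro A hA
    refine ⟨∅, 1, one_pos, ?_⟩
    rw [hexp A hA]
    exact Set.subset_univ _
  · intro hvdc
    have hfin : IsFiniteMeasure (spec c) := by
      have hprob : IsProbabilityMeasure (mu.map (Psi c)) :=
        Measure.isProbabilityMeasure_map (Psi_continuous c).measurable.aemeasurable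
      unfold spec
      infer_instance
    have h := hvdc (spec c) hfin (spec_coeff c hc)
    unfold spec at h
    rw [Measure.add_apply, Measure.dirac_apply_of_mem (Set.mem_singleton _)] at h
    exact absurd h (by simp)

end Pool.Agent.Results.MP_f7f1a6_co.ExpandingNotVdC
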